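import Mathlib
import Pool.Graph.R_seed8.Y276.Rig.Stm
import Pool.Agent.H258.CR.EL
import Pool.Agent.H258.CR.MU

/-!
# Uncountably many factors with property (T) and several groups: the pieces
-/

set_option autoImplicit false

namespace Pool.Agent.H193.OZ

open scoped ComplexConjugate
open Pool.Agent.Y276.Rig (PropertyT)
open Pool.Agent.H258.CR (MU Lam ee)

/-- the Hilbert space `ℓ²(G)` -/
abbrev L2 (G : Type) : Type := lp (fun _ : G => ℂ) 2

/-- bounded operators on `ℓ²(G)` -/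
abbrev Bd (G : Type) : Type := L2 G →L[ℂ] L2 G

/-- the group von Neumann algebra `L(G)`: the bounded operators on `ℓ²(G)` which commute with the
right translations -/
def VN (G : Type) [Group G] : Set (Bd G) :=
  {T | ∀ g : G, ∀ f f' : L2 G, (∀ x : G, f' x = f (x * g)) → ∀ x : G, (T f') x = (T f) (x * g)}

/-- `L(G)` and `L(H)` are isomorphic as algebras with involution -/
def VNIso (G H : Type) [Group G] [Group H] : Prop :=
  ∃ Φ : Bd G → Bd H, Set.BijOn Φ (VN G) (VN H) ∧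
    ∀ x ∈ VN G, ∀ y ∈ VN G,
      Φ (x + y) = Φ x + Φ y ∧ Φ (x * y) = Φ x * Φ y ∧
      Φ (star x) = star (Φ x) ∧ ∀ c : ℂ, Φ (c • x) = c • Φ x

/-- `L(G)` is closed under the operations -/
def S_cl : Prop := ∀ (G : Type) [Group G],
  (1 : Bd G) ∈ VN G ∧ (∀ x ∈ VN G, ∀ y ∈ VN G, x + y ∈ VN G ∧ x * y ∈ VN G) ∧
  (∀ x ∈ VN G, star x ∈ VN G ∧ ∀ c : ℂ, c • x ∈ VN G)

/-- `VNIso` is symmetric -/
def S_sym : Prop := ∀ (G H : Type) [Group G] [Group H], VNIso G H → VNIso H G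

/-- the left translations -/
def S_L : Prop := ∀ (G : Type) [Group G], ∃ L : G → Bd G,
  (∀ (x : G) (f : L2 G) (y : G), (L x f) y = f (x⁻¹ * y)) ∧ (∀ x, L x ∈ VN G) ∧ L 1 = 1 ∧
  (∀ x y, L (x * y) = L x * L y) ∧ ∀ x, star (L x) = L x⁻¹

/-- the canonical conjugation `J` and the commutation theorem `T (J S J) = (J S J) T` -/
def S_J : Prop := ∀ (H : Type) [Group H], ∃ (J : L2 H → L2 H) (d : L2 H),
  (∀ f g, J (f + g) = J f + J g) ∧ (∀ (c : ℂ) f, J (c • f) = conj c • J f) ∧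
  (∀ f, ‖J f‖ = ‖f‖) ∧ (∀ f, J (J f) = f) ∧ ‖d‖ = 1 ∧ J d = d ∧
  (∀ T ∈ VN H, J (T d) = (star T) d) ∧
  ∀ T ∈ VN H, ∀ S ∈ VN H, ∀ f, T (J (S (J f))) = J (S (J (T f)))

/-- a common fixed vector of elements of `L(H)` gives a nonzero element of `L(H)` fixed by them -/
def S_P : Prop := ∀ (H : Type) [Group H] (W : Set (Bd H)), W ⊆ VN H → ∀ v : L2 H, v ≠ 0 →
  (∀ T ∈ W, T v = v) → ∃ q ∈ VN H, q ≠ 0 ∧ ∀ T ∈ W, T * q = q

/-- only zero is fixed by infinitely many left translations -/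
def S_I : Prop := ∀ (G : Type) [Group G] (q : Bd G) (N : Set G), N.Infinite →
  (∀ x ∈ N, ∀ (f : L2 G) (y : G), (q f) (x⁻¹ * y) = (q f) y) → q = 0

/-- separability -/
def S_Q : Prop := ∀ (H : Type) [Countable H] (Q ι : Type) [Finite Q] (A : Set ι), ¬ A.Countable →
  ∀ (F : ι → Q → L2 H) (ε : ℝ), 0 < ε → ∃ i ∈ A, ∃ j ∈ A, i ≠ j ∧ ∀ s, ‖F i s - F j s‖ < ε

/-- the separability argument of Connes and Ozawa -/
def S_main : Prop := ∀ (Γ : Type) [Group Γ], PropertyT Γ → ∀ (H : Type) [Group H] [Countable H]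
  (ι : Type) (G : ι → Type) [∀ i, Group (G i)] (ρ : ∀ i, Γ →* G i),
  (∀ i j, i ≠ j → {y | ∃ g, ρ i g = 1 ∧ ρ j g = y}.Infinite) → {i | VNIso (G i) H}.Countable

/-- a graph on the continuum with countable degrees has an independent set of the size of the
continuum -/
def S_D : Prop := ∀ R : (ℕ → Bool) → (ℕ → Bool) → Prop, (∀ a b, R a b → R b a) →
  (∀ a, {b | R b a}.Countable) →
  ∃ s : Set (ℕ → Bool), Cardinal.mk s = Cardinal.continuum ∧ ∀ a ∈ s, ∀ b ∈ s, a ≠ b → ¬ R a b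

/-- a ring homomorphism induces a homomorphism of the elementary groups -/
def S_F : Prop := ∀ (A B : Type) [Ring A] [Ring B] (f : A →+* B), ∃ φ : Lam A →* Lam B,
  ∀ (i j : Fin 3) (h : i ≠ j) (r : A), φ (ee h r) = ee h (f r)

/-- the rings generated by a weighted left shift `x` (weights `w n ∈ k`, `w n = c` if `n = 4 ^ j`
with `θ j = true`, otherwise `w n = 1`) and the right shift `y` -/
def S_R : Prop := ∀ (k : Type) [Field k] [Finite k] (c : k), c ≠ 0 → c ≠ 1 →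
  (∀ u : k, u ≠ 0 → u ^ 7 = 1) →
  ∃ (R : (ℕ → Bool) → Type) (_ : ∀ θ, Ring (R θ)) (_ : ∀ θ, Algebra k (R θ))
    (U : ∀ θ, MU k (R θ)) (x y : ∀ θ, R θ),
    (∀ θ, Algebra.adjoin k {x θ, y θ} = (⊤ : Subalgebra k (R θ))) ∧ (∀ θ, Countable (R θ)) ∧
    ∀ θ θ', θ ≠ θ' → ∃ p : FreeAlgebra k (Fin 2), FreeAlgebra.lift k ![x θ, y θ] p = 0 ∧
      ∃ γ : k, γ ≠ 0 ∧ FreeAlgebra.lift k ![x θ', y θ'] p = γ • (U θ').e 0 0

end Pool.Agent.H193.OZ
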