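import Mathlib
import Pool.Agent.H193.OZ.Stm

/-!
# Isomorphisms of group von Neumann algebras in terms of functions
-/

set_option autoImplicit false

namespace Pool.Agent.H193.OZ

open scoped ComplexConjugate
open Pool.Agent.Y276.Rig (SqSum InVN)

/-- `S` and `T` are the same operator on `ℓ²(G)` -/
def Same {G : Type} (S T : (G → ℂ) → (G → ℂ)) : Prop := ∀ f, SqSum f → S f = T f

/-- the inner product of `ℓ²(G)` -/
noncomputable def inn {G : Type} (f g : G → ℂ) : ℂ := ∑' x, f x * conj (g x)

/-- the operator `S` on `ℓ²(G)` is the adjoint of `T` -/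
def Adjoint {G : Type} (T S : (G → ℂ) → (G → ℂ)) : Prop :=
  ∀ f g, SqSum f → SqSum g → inn (T f) g = inn f (S g)

/-- `L(G)` and `L(H)` are isomorphic as algebras with involution: there is a bijection `Φ` of
`L(G)` onto `L(H)` (operators which are the same on `ℓ²` are identified) which preserves sums,
products, multiples and adjoints -/
def Isomorphic (G H : Type) [Group G] [Group H] : Prop :=
  ∃ Φ : ((G → ℂ) → (G → ℂ)) → ((H → ℂ) → (H → ℂ)),
    (∀ T, InVN T → InVN (Φ T)) ∧
    (∀ S, InVN S → ∃ T, InVN T ∧ Same (Φ T) S) ∧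
    ∀ S T, InVN S → InVN T →
      (Same S T ↔ Same (Φ S) (Φ T)) ∧
      Same (Φ (fun f => S f + T f)) (fun f => Φ S f + Φ T f) ∧
      Same (Φ (fun f => S (T f))) (fun f => Φ S (Φ T f)) ∧
      (∀ c : ℂ, Same (Φ (fun f => c • S f)) (fun f => c • Φ S f)) ∧
      (Adjoint S T → Adjoint (Φ S) (Φ T))

/-- the comparison with `VNIso` -/
def S_BR : Prop := ∀ (G H : Type) [Group G] [Group H], Isomorphic G H → VNIso G H

end Pool.Agent.H193.OZ
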