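import Mathlib
import Pool.Agent.H193.OZ.Fn
import Pool.Agent.H82.OZ_L

/-!
# OZ-BR: isomorphisms of group von Neumann algebras, functions and `ℓ²` spaces
-/

set_option autoImplicit false

namespace Pool.Agent.H193.OZ.BR6

open scoped ComplexConjugate InnerProductSpace
open Pool.Agent.Y276.Rig (SqSum InVN IsOp nsq)
open Pool.Agent.H193.OZ

variable {G H : Type}

theorem sq_iff (f : G → ℂ) : SqSum f ↔ Memℓp (E := fun _ : G => ℂ) f 2 := by
  have h : 0 < (2 : ENNReal).toReal := by norm_num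
  rw [memℓp_gen_iff h]
  unfold SqSum
  simp

/-- a square summable function as an element of `ℓ²` -/
def toL (f : G → ℂ) (h : SqSum f) : L2 G := ⟨f, (sq_iff f).1 h⟩

theorem toL_apply (f : G → ℂ) (h : SqSum f) (x : G) : toL f h x = f x := rfl

theorem sq_coe (F : L2 G) : SqSum (F : G → ℂ) := (sq_iff _).2 (lp.memℓp F)

theorem toL_coe (F : L2 G) (h : SqSum (F : G → ℂ)) : toL F h = F := by
  ext x
  rfl

theorem nsq_coe (F : L2 G) : nsq (F : G → ℂ) = ‖F‖ ^ 2 := by
  have h : 0 < (2 : ENNReal).toReal := by norm_num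
  have h1 := lp.norm_rpow_eq_tsum h F
  simp only [ENNReal.toReal_ofNat, Real.rpow_two] at h1
  rw [h1]
  rfl

open Classical in
/-- the operator on functions -/
noncomputable def fn (T : Bd G) : (G → ℂ) → (G → ℂ) :=
  fun f => if h : SqSum f then (T (toL f h) : G → ℂ) else 0

theorem fn_of (T : Bd G) {f : G → ℂ} (h : SqSum f) : fn T f = (T (toL f h) : G → ℂ) := by
  unfold fn
  rw [dif_pos h]

theorem fn_coe (T : Bd G) (F : L2 G) : fn T (F : G → ℂ) = (T F : G → ℂ) := by
  rw [fn_of T (sq_coe F), toL_coe]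

theorem sq_fn (T : Bd G) {f : G → ℂ} (h : SqSum f) : SqSum (fn T f) := by
  rw [fn_of T h]
  exact sq_coe _

theorem isOp_fn (T : Bd G) : IsOp (fn T) := by
  refine ⟨fun f hf => sq_fn T hf, fun f f' hf hf' => ?_, fun c f hf => ?_, ‖T‖ ^ 2, fun f hf => ?_⟩
  · have h1 : SqSum (f + f') := sq_coe (toL f hf + toL f' hf')
    rw [fn_of T h1, fn_of T hf, fn_of T hf']
    have h2 : toL (f + f') h1 = toL f hf + toL f' hf' := by
      ext x
      rfl
    rw [h2, map_add]
    rfl
  · have h1 : SqSum (c • f) := sq_coe (c • toL f hf)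
    rw [fn_of T h1, fn_of T hf]
    have h2 : toL (c • f) h1 = c • toL f hf := by
      ext x
      rfl
    rw [h2, map_smul]
    rfl
  · rw [fn_of T hf, nsq_coe]
    have h1 : nsq f = ‖toL f hf‖ ^ 2 := nsq_coe (toL f hf)
    rw [h1, ← mul_pow]
    have h2 := T.le_opNorm (toL f hf)
    gcongr

theorem same_symm {S T : (G → ℂ) → (G → ℂ)} (h : Same S T) : Same T S := fun f hf => (h f hf).symm

theorem same_trans {S T U : (G → ℂ) → (G → ℂ)} (h : Same S T) (h' : Same T U) : Same S U :=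
  fun f hf => (h f hf).trans (h' f hf)

theorem fn_inj {T T' : Bd G} (h : Same (fn T) (fn T')) : T = T' := by
  refine ContinuousLinearMap.ext fun F => ?_
  have h1 := h F (sq_coe F)
  rw [fn_coe, fn_coe] at h1
  ext x
  exact congrFun h1 x

theorem sq_translate [Group G] {f : G → ℂ} (h : SqSum f) (g : G) : SqSum fun x => f (x * g) :=
  (Equiv.summable_iff (Equiv.mulRight g) (f := fun x => ‖f x‖ ^ 2)).2 h

theorem isOp_same {S T : (G → ℂ) → (G → ℂ)} (h : Same S T) (hS : IsOp S) : IsOp T := by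
  obtain ⟨h1, h2, h3, C, h4⟩ := hS
  refine ⟨fun f hf => ?_, fun f f' hf hf' => ?_, fun c f hf => ?_, C, fun f hf => ?_⟩
  · rw [← h f hf]
    exact h1 f hf
  · have h5 : SqSum (f + f') := sq_coe (toL f hf + toL f' hf')
    rw [← h f hf, ← h f' hf', ← h _ h5]
    exact h2 f f' hf hf'
  · have h5 : SqSum (c • f) := sq_coe (c • toL f hf)
    rw [← h f hf, ← h _ h5]
    exact h3 c f hf
  · rw [← h f hf]
    exact h4 f hf

theorem inVN_same [Group G] {S T : (G → ℂ) → (G → ℂ)} (h : Same S T) (hS : InVN S) : InVN T := by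
  refine ⟨isOp_same h hS.1, fun g f hf => ?_⟩
  rw [← h f hf, ← h _ (sq_translate hf g)]
  exact hS.2 g f hf

theorem inVN_fn [Group G] (T : Bd G) : InVN (fn T) ↔ T ∈ VN G := by
  constructor
  · rintro ⟨-, h⟩ g f f' hf x
    have h1 := h g f (sq_coe f)
    have h2 : (fun x => f (x * g)) = (f' : G → ℂ) := funext fun x => (hf x).symm
    rw [h2, fn_coe, fn_coe] at h1
    exact congrFun h1 x
  · intro h
    refine ⟨isOp_fn T, fun g f hf => ?_⟩
    have h1 := sq_translate hf g
    rw [fn_of T h1, fn_of T hf]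
    funext x
    exact h g (toL f hf) (toL _ h1) (fun x => rfl) x

/-- every operator on functions comes from a bounded operator -/
theorem exists_bd {S : (G → ℂ) → (G → ℂ)} (hS : IsOp S) : ∃ T : Bd G, Same S (fn T) := by
  obtain ⟨h1, h2, h3, C, h4⟩ := hS
  let L : L2 G →ₗ[ℂ] L2 G :=
    { toFun := fun F => toL (S F) (h1 F (sq_coe F))
      map_add' := fun F F' => by
        ext x
        have := h2 F F' (sq_coe F) (sq_coe F')
        exact congrFun this x
      map_smul' := fun c F => by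
        ext x
        have := h3 c F (sq_coe F)
        exact congrFun this x }
  have hb : ∀ F, ‖L F‖ ≤ √|C| * ‖F‖ := by
    intro F
    have h5 : ‖L F‖ ^ 2 ≤ C * ‖F‖ ^ 2 := by
      rw [← nsq_coe, ← nsq_coe]
      exact h4 F (sq_coe F)
    have h6 : ‖L F‖ ^ 2 ≤ (√|C| * ‖F‖) ^ 2 := by
      rw [mul_pow, Real.sq_sqrt (abs_nonneg C)]
      refine h5.trans ?_
      gcongr
      exact le_abs_self C
    exact le_of_sq_le_sq h6 (by positivity)
  refine ⟨L.mkContinuous _ hb, fun f hf => ?_⟩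
  rw [fn_of _ hf]
  rfl

theorem inn_eq {f g : G → ℂ} (hf : SqSum f) (hg : SqSum g) :
    inn f g = ⟪toL g hg, toL f hf⟫_ℂ := by
  rw [lp.inner_eq_tsum]
  unfold inn
  refine tsum_congr fun x => ?_
  rw [toL_apply, toL_apply]
  simp

theorem adjoint_fn (T : Bd G) : Adjoint (fn T) (fn (star T)) := by
  intro f g hf hg
  rw [inn_eq (sq_fn T hf) hg, inn_eq hf (sq_fn (star T) hg)]
  have e1 : toL (fn T f) (sq_fn T hf) = T (toL f hf) := by
    ext x
    rw [toL_apply, fn_of T hf]
  have e2 : toL (fn (star T) g) (sq_fn (star T) hg) = star T (toL g hg) := by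
    ext x
    rw [toL_apply, fn_of (star T) hg]
  rw [e1, e2, ContinuousLinearMap.star_eq_adjoint, ContinuousLinearMap.adjoint_inner_left]

theorem eq_star_of_adjoint {T S : Bd G} (h : Adjoint (fn T) (fn S)) : S = star T := by
  rw [ContinuousLinearMap.star_eq_adjoint, ContinuousLinearMap.eq_adjoint_iff]
  intro F K
  have h1 := h K F (sq_coe K) (sq_coe F)
  rw [fn_coe, fn_coe] at h1
  rw [inn_eq (sq_coe _) (sq_coe _), inn_eq (sq_coe _) (sq_coe _)] at h1
  rw [toL_coe, toL_coe, toL_coe, toL_coe] at h1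
  exact h1.symm

theorem adjoint_same {S S' T T' : (G → ℂ) → (G → ℂ)} (h : Same S S') (h' : Same T T')
    (hST : Adjoint S T) : Adjoint S' T' := by
  intro f g hf hg
  rw [← h f hf, ← h' g hg]
  exact hST f g hf hg

/-- **BR.** -/
theorem s_BR : S_BR := by
  intro G H _ _ ⟨Φ, hΦ, hsur, hcl⟩
  have hex : ∀ T : Bd G, ∃ T' : Bd H, T ∈ VN G → Same (Φ (fn T)) (fn T') := by
    intro T
    by_cases hT : T ∈ VN G
    · obtain ⟨T', hT'⟩ := exists_bd (hΦ _ ((inVN_fn T).2 hT)).1
      exact ⟨T', fun _ => hT'⟩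
    · exact ⟨0, fun h => absurd h hT⟩
  choose Ψ hΨ using hex
  obtain ⟨cl1, cl2, cl3⟩ := Pool.Agent.H82.OZL.s_cl G
  -- congruence
  have hcongr : ∀ (S : (G → ℂ) → (G → ℂ)) (z : Bd G), z ∈ VN G → Same S (fn z) →
      Same (Φ S) (fn (Ψ z)) := by
    intro S z hz hS
    have h1 : InVN (fn z) := (inVN_fn z).2 hz
    have h2 : InVN S := inVN_same (same_symm hS) h1
    exact same_trans ((hcl S (fn z) h2 h1).1.1 hS) (hΨ z hz)
  have hmem : ∀ T ∈ VN G, Ψ T ∈ VN H := by
    intro T hT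
    rw [← inVN_fn]
    exact inVN_same (hΨ T hT) (hΦ _ ((inVN_fn T).2 hT))
  refine ⟨Ψ, ⟨hmem, ?_, ?_⟩, ?_⟩
  · intro T hT T' hT' he
    have h1 : Same (Φ (fn T)) (Φ (fn T')) := by
      have e1 := hΨ T hT
      have e2 := hΨ T' hT'
      have he' : Ψ T = Ψ T' := he
      rw [he'] at e1
      exact same_trans e1 (same_symm e2)
    exact fn_inj ((hcl _ _ ((inVN_fn T).2 hT) ((inVN_fn T').2 hT')).1.2 h1)
  · intro S hS
    obtain ⟨T, hT, hTS⟩ := hsur (fn S) ((inVN_fn S).2 hS)
    obtain ⟨T₀, hT₀⟩ := exists_bd hT.1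
    have hT₀m : T₀ ∈ VN G := (inVN_fn T₀).1 (inVN_same hT₀ hT)
    refine ⟨T₀, hT₀m, ?_⟩
    apply fn_inj
    exact same_trans (same_symm (hcongr T T₀ hT₀m hT₀)) hTS
  · intro x hx y hy
    have hX : InVN (fn x) := (inVN_fn x).2 hx
    have hY : InVN (fn y) := (inVN_fn y).2 hy
    obtain ⟨-, c2, c3, c4, c5⟩ := hcl _ _ hX hY
    refine ⟨?_, ?_, ?_, ?_⟩
    · apply fn_inj
      have e1 : Same (fun f => fn x f + fn y f) (fn (x + y)) := by
        intro f hf
        simp only [fn_of _ hf]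
        rfl
      have e2 := hcongr _ _ (cl2 x hx y hy).1 e1
      refine same_trans (same_symm e2) (same_trans c2 ?_)
      intro f hf
      simp only [hΨ x hx f hf, hΨ y hy f hf, fn_of _ hf]
      rfl
    · apply fn_inj
      have e1 : Same (fun f => fn x (fn y f)) (fn (x * y)) := by
        intro f hf
        simp only
        rw [fn_of y hf, fn_coe, fn_of _ hf]
        rfl
      have e2 := hcongr _ _ (cl2 x hx y hy).2 e1
      refine same_trans (same_symm e2) (same_trans c3 ?_)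
      intro f hf
      simp only
      rw [hΨ y hy f hf, hΨ x hx _ (sq_fn _ hf), fn_of (Ψ y) hf, fn_coe, fn_of _ hf]
      rfl
    · have e1 := (hcl _ _ hX ((inVN_fn (star x)).2 (cl3 x hx).1)).2.2.2.2 (adjoint_fn x)
      exact eq_star_of_adjoint (adjoint_same (hΨ x hx) (hΨ _ (cl3 x hx).1) e1)
    · intro c
      apply fn_inj
      have e1 : Same (fun f => c • fn x f) (fn (c • x)) := by
        intro f hf
        simp only [fn_of _ hf]
        rfl
      have e2 := hcongr _ _ ((cl3 x hx).2 c) e1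
      refine same_trans (same_symm e2) (same_trans (c4 c) ?_)
      intro f hf
      simp only [hΨ x hx f hf, fn_of _ hf]
      rfl

end Pool.Agent.H193.OZ.BR6
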