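import Mathlib
import Pool.Agent.H193.OZ.Stm
import Pool.Agent.H258.CR.Main

/-!
# Uncountably many factors with property (T) and several groups: assembly
-/

set_option autoImplicit false
set_option linter.unusedSectionVars false

namespace Pool.Agent.H193.OZ

open Pool.Agent Pool.Agent.Y276.Rig Pool.Agent.H258.CR
open SemidirectProduct

section sep
variable {k : Type} [Field k] [Fintype k] [CharP k 2]

/-- the free algebra on two generators -/
abbrev FA (k : Type) [Field k] := FreeAlgebra k (Fin 2)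

lemma FA_gen : Algebra.adjoin k {FreeAlgebra.ι k (0 : Fin 2), FreeAlgebra.ι k (1 : Fin 2)} =
    (⊤ : Subalgebra k (FA k)) := by
  rw [← FreeAlgebra.adjoin_range_ι]
  congr 1
  ext z
  simp only [Set.mem_insert_iff, Set.mem_singleton_iff, Set.mem_range, Fin.exists_fin_two]
  constructor
  · rintro (h | h)
    · exact Or.inl h.symm
    · exact Or.inr h.symm
  · rintro (h | h)
    · exact Or.inl h.symm
    · exact Or.inr h.symm

lemma alg_two {R : Type} [Ring R] [Algebra k R] (r : R) : r + r = 0 := by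
  have h : (2 : k) • r = 0 := by
    rw [show (2 : k) = 0 from CharTwo.two_eq_zero, zero_smul]
  rwa [two_smul] at h

lemma lift_surj {R : Type} [Ring R] [Algebra k R] {x y : R}
    (hgen : Algebra.adjoin k {x, y} = (⊤ : Subalgebra k R)) (r : R) :
    ∃ p : FA k, FreeAlgebra.lift k ![x, y] p = r := by
  have h : Algebra.adjoin k (Set.range ![x, y]) = (⊤ : Subalgebra k R) := by
    rw [← hgen]
    congr 1
    ext z
    simp only [Set.mem_range, Set.mem_insert_iff, Set.mem_singleton_iff, Fin.exists_fin_two]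
    show (x = z ∨ y = z) ↔ _
    rw [eq_comm (a := x), eq_comm (a := y)]
  rw [Algebra.adjoin_range_eq_range_freeAlgebra_lift] at h
  have : r ∈ (⊤ : Subalgebra k R) := trivial
  rw [← h] at this
  exact this

/-- the group `Γ` with property (T) which acts on all factors -/
abbrev Gam (k : Type) [Field k] := Gp (Λ := Lam (FA k)) (0 : V3 (FA k) →+ V3 (FA k))
  (fun g a => by simp)

lemma T_Gam (hk : 7 ≤ Fintype.card k) : PropertyT (Gam k) :=
  T_Gp _ _ FA_gen (alg_two (k := k)) hk

lemma ee_inj {R : Type} [Ring R] {i j : Fin 3} (h : i ≠ j) {r s : R}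
    (hrs : (ee h r : Lam R) = ee h s) : r = s := by
  have h1 := congrArg (fun g : Lam R => ((g : (Matrix (Fin 3) (Fin 3) R)ˣ) :
    Matrix (Fin 3) (Fin 3) R) i j) hrs
  have h2 : ∀ t : R, ((ee h t : Lam R) : (Matrix (Fin 3) (Fin 3) R)ˣ).val i j = t := by
    intro t
    show (el h t : (Matrix (Fin 3) (Fin 3) R)ˣ).val i j = t
    rw [el_coe]
    simp [Matrix.one_apply, h]
  simpa only [h2] using h1

end sep

theorem final (hmain : S_main) (hD : S_D) (hF : S_F) (hR : S_R) (hsym : S_sym)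
    (k : Type) [Field k] [Fintype k] [CharP k 2] (hcard : Nat.card k = 8) :
    ∃ (ι : Type) (G : ι → ℕ → Type) (_ : ∀ i n, Group (G i n)),
      Cardinal.mk ι = Cardinal.continuum ∧
      (∀ i n, Countable (G i n) ∧ IsIcc (G i n) ∧ PropertyT (G i n)) ∧
      (∀ i n m, SameGroupAlgebra (G i n) (G i m) ∧ SameVN (G i n) (G i m)) ∧
      (∀ i n m, n ≠ m → ¬ VirtuallyIsomorphic (G i n) (G i m)) ∧
      ∀ i j n m, i ≠ j → ¬ VNIso (G i n) (G j m) := by
  classical
  have hk8 : Fintype.card k = 8 := by rw [← Nat.card_eq_fintype_card, hcard]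
  have hk : 7 ≤ Fintype.card k := by omega
  obtain ⟨c, hc0, hc1⟩ : ∃ c : k, c ≠ 0 ∧ c ≠ 1 := by
    by_contra hcon
    push Not at hcon
    have h1 : (Finset.univ : Finset k) ⊆ {0, 1} := by
      intro z _
      by_cases hz : z = 0
      · simp [hz]
      · simp [hcon z hz]
    have h2 := (Finset.card_le_card h1).trans Finset.card_le_two
    rw [Finset.card_univ] at h2
    omega
  have h7 : ∀ u : k, u ≠ 0 → u ^ 7 = 1 := by
    intro u hu
    have := FiniteField.pow_card_sub_one_eq_one u hu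
    rwa [hk8] at this
  obtain ⟨R, iR, iA, U, x, y, hgen, hcnt, hsep⟩ := hR k c hc0 hc1 h7
  have hicc : ∀ θ n, IsIcc (Gr (U θ) n) := fun θ n z hz =>
    icc_Gp (U θ) (pA (U θ) n) (alg_two (k := k)) hcard _ z hz
  choose φ hφ using fun θ => hF (FA k) (R θ) (FreeAlgebra.lift k ![x θ, y θ]).toRingHom
  -- the homomorphisms from `Γ`
  let ρ : ∀ θ n, Gam k →* Gr (U θ) n := fun θ n =>
    (inr : Lam (R θ) →* Gr (U θ) n).comp ((φ θ).comp (rightHom : Gam k →* Lam (FA k)))
  have hρinf : ∀ (n : (ℕ → Bool) → ℕ) (θ θ' : ℕ → Bool), θ ≠ θ' →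
      {z | ∃ g, ρ θ (n θ) g = 1 ∧ ρ θ' (n θ') g = z}.Infinite := by
    intro n θ θ' hne
    obtain ⟨p, hp, γ, hγ, hp'⟩ := hsep θ θ' hne
    have h01 : (0 : Fin 3) ≠ 1 := by decide
    choose b hb using fun m : ℕ => lift_surj (hgen θ') ((U θ').e m 0)
    have hinj : Function.Injective (fun m : ℕ =>
        (inr (ee h01 (γ • (U θ').e m 0)) : Gr (U θ') (n θ'))) := by
      intro m m' hmm
      have h1 := ee_inj h01 (inr_injective hmm)
      have h2 := congrArg (fun r => (U θ').ent r m 0) h1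
      simp only [(U θ').ent_smul, (U θ').ent_e] at h2
      by_contra hcon
      simp [hγ, Ne.symm hcon] at h2
    refine (Set.infinite_range_of_injective hinj).mono ?_
    rintro _ ⟨m, rfl⟩
    refine ⟨(inr (ee h01 (b m * p)) : Gam k), ?_, ?_⟩
    · show inr (φ θ (rightHom (inr (ee h01 (b m * p)) : Gam k))) = _
      rw [rightHom_inr, hφ]
      have h3 : (FreeAlgebra.lift k ![x θ, y θ]).toRingHom (b m * p) = 0 := by
        show FreeAlgebra.lift k ![x θ, y θ] (b m * p) = 0
        rw [map_mul, hp, mul_zero]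
      rw [h3, ee_zero, map_one]
    · show inr (φ θ' (rightHom (inr (ee h01 (b m * p)) : Gam k))) = _
      rw [rightHom_inr, hφ]
      have h3 : (FreeAlgebra.lift k ![x θ', y θ']).toRingHom (b m * p) = γ • (U θ').e m 0 := by
        show FreeAlgebra.lift k ![x θ', y θ'] (b m * p) = _
        rw [map_mul, hp', hb, mul_smul_comm, (U θ').e_mul, if_pos rfl]
      rw [h3]
  have hcountG : ∀ θ n, Countable (Gr (U θ) n) := fun θ n => Gp_countable _ _
  have hcount : ∀ (θ' : ℕ → Bool) (m n : ℕ), {θ | VNIso (Gr (U θ) n) (Gr (U θ') m)}.Countable := by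
    intro θ' m n
    have := hcountG θ' m
    exact hmain (Gam k) (T_Gam hk) (Gr (U θ') m) (ℕ → Bool) (fun θ => Gr (U θ) n)
      (fun θ => ρ θ n) (hρinf (fun _ => n))
  obtain ⟨s, hs, hind⟩ := hD (fun θ θ' => ∃ n m, VNIso (Gr (U θ) n) (Gr (U θ') m))
    (by
      rintro θ θ' ⟨n, m, h⟩
      exact ⟨m, n, hsym _ _ h⟩)
    (by
      intro θ'
      have : {θ | ∃ n m, VNIso (Gr (U θ) n) (Gr (U θ') m)} =
          ⋃ (n : ℕ) (m : ℕ), {θ | VNIso (Gr (U θ) n) (Gr (U θ') m)} := by
        ext θ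
        simp only [Set.mem_ofPred_eq, Set.mem_iUnion]
      rw [this]
      exact Set.countable_iUnion fun n => Set.countable_iUnion fun m => hcount θ' m n)
  refine ⟨s, fun i n => Gr (U i.1) n, fun i n => inferInstance, hs, fun i n => ⟨hcountG _ _, hicc _ _,
    T_Gp _ _ (hgen i.1) (alg_two (k := k)) hk⟩, fun i n m => ?_, fun i n m hnm hvi => ?_,
    fun i j n m hij h => ?_⟩
  · let t := Twist.comp (twistP _ (pA_smul (U i.1) n)) (twistP _ (pA_smul (U i.1) m))
    refine ⟨⟨algEq t, algEq_trace t, ?_⟩, sameVN t⟩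
    intro x y hxy h
    have h1 : y = invo x := by
      apply MonoidAlgebra.ext
      ext g
      rw [hxy, invo_coeff]
    rw [h1, algEq_invo, invo_coeff]
  · obtain ⟨H, H', hH, hH', ⟨e⟩⟩ := vi_icc (hicc _ _) (hicc _ _) hvi
    exact hnm (le_antisymm (le_of_equiv _ (alg_two (k := k)) hcard n m H H' hH hH' e)
      (le_of_equiv _ (alg_two (k := k)) hcard m n H' H hH' hH e.symm))
  · exact hind i.1 i.2 j.1 j.2 (fun h => hij (Subtype.ext h)) ⟨n, m, h⟩

end Pool.Agent.H193.OZ
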