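import Mathlib
import Pool.Agent.H193.OZ.Stm

/-!
# The separability argument from its parts
-/

set_option autoImplicit false

namespace Pool.Agent.H193.OZ

open scoped ComplexConjugate
open Pool.Agent.Y276.Rig (PropertyT IsUnitaryRep)

lemma zero_mem_VN (hcl : S_cl) (G : Type) [Group G] : (0 : Bd G) ∈ VN G := by
  have h := ((hcl G).2.2 1 (hcl G).1).2 0
  rwa [zero_smul] at h

/-- the representation of `Γ` by elements of `L(H)` defined by an isomorphism -/
lemma rep_of_iso (hcl : S_cl) (hL : S_L) (hP : S_P) (hI : S_I) {Γ : Type} [Group Γ]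
    {G H : Type} [Group G] [Group H] (h : VNIso G H) (ρ : Γ →* G) :
    ∃ π : Γ → Bd H, (∀ g, π g ∈ VN H) ∧ π 1 = 1 ∧ (∀ g g', π (g * g') = π g * π g') ∧
      (∀ g, star (π g) = π g⁻¹) ∧ (∀ g, ρ g = 1 → π g = 1) ∧
      ∀ K : Set Γ, {y | ∃ g ∈ K, ρ g = y}.Infinite → ∀ v : L2 H, (∀ g ∈ K, π g v = v) →
        v = 0 := by
  obtain ⟨Φ, hbij, hΦ⟩ := h
  obtain ⟨L, hLv, hLm, hL1, hLmul, hLstar⟩ := hL G
  have h1 : Φ 1 = 1 := by
    obtain ⟨x, hx, hx1⟩ := hbij.surjOn (hcl H).1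
    have := (hΦ 1 (hcl G).1 x hx).2.1
    rw [one_mul, hx1, mul_one] at this
    exact this.symm
  have h0 : Φ 0 = 0 := by
    have := (hΦ 0 (zero_mem_VN hcl G) 0 (zero_mem_VN hcl G)).1
    rw [add_zero] at this
    exact left_eq_add.1 this
  refine ⟨fun g => Φ (L (ρ g)), fun g => hbij.mapsTo (hLm _), ?_, ?_, ?_, ?_, ?_⟩
  · show Φ (L (ρ 1)) = 1
    rw [map_one, hL1, h1]
  · intro g g'
    show Φ (L (ρ (g * g'))) = Φ (L (ρ g)) * Φ (L (ρ g'))
    rw [map_mul, hLmul, (hΦ _ (hLm _) _ (hLm _)).2.1]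
  · intro g
    show star (Φ (L (ρ g))) = Φ (L (ρ g⁻¹))
    rw [← (hΦ _ (hLm (ρ g)) _ (hLm (ρ g))).2.2.1, hLstar, map_inv]
  · intro g hg
    show Φ (L (ρ g)) = 1
    rw [hg, hL1, h1]
  · intro K hK v hv
    by_contra hv0
    obtain ⟨q, hq, hq0, hqW⟩ := hP H ((fun g => Φ (L (ρ g))) '' K)
      (by rintro _ ⟨g, _, rfl⟩; exact hbij.mapsTo (hLm _)) v hv0
      (by rintro _ ⟨g, hg, rfl⟩; exact hv g hg)
    obtain ⟨p, hp, rfl⟩ := hbij.surjOn hq
    apply hq0
    have hp0 : p = 0 := by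
      refine hI G p {y | ∃ g ∈ K, ρ g = y} hK ?_
      rintro _ ⟨g, hg, rfl⟩ f y
      have h2 : Φ (L (ρ g) * p) = Φ p := by
        rw [(hΦ _ (hLm _) _ hp).2.1]
        exact hqW _ ⟨g, hg, rfl⟩
      have h3 : L (ρ g) * p = p :=
        hbij.injOn ((hcl G).2.1 _ (hLm _) _ hp).2 hp h2
      have h4 := congrArg (fun T : Bd G => (T f) y) h3
      have h5 : ((L (ρ g) * p) f) y = (p f) ((ρ g)⁻¹ * y) := hLv (ρ g) (p f) y
      exact h5.symm.trans h4
    rw [hp0, h0]

lemma norm_of_star {H : Type} (T : Bd H) (h : star T * T = 1) (h' : T * star T = 1) (x : L2 H) :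
    ‖T x‖ = ‖x‖ := by
  have : T ∈ unitary (Bd H) := Unitary.mem_iff.2 ⟨h, h'⟩
  exact ContinuousLinearMap.norm_map_of_mem_unitary this x

theorem s_main (hcl : S_cl) (hL : S_L) (hJ : S_J) (hP : S_P) (hI : S_I) (hQ : S_Q) : S_main := by
  intro Γ _ hT H _ _ ι G _ ρ hρ
  by_contra hunc
  obtain ⟨S, ε, hε, hKaz⟩ := hT
  obtain ⟨J, d, J_add, J_smul, J_norm, J_inv, hd1, Jd, Jstar, Jcomm⟩ := hJ H
  set A : Set ι := {i | VNIso (G i) H} with hA
  choose π hπV hπ1 hπmul hπstar hπker hπfix using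
    fun i : A => rep_of_iso hcl hL hP hI (Γ := Γ) (show VNIso (G i.1) H from i.2) (ρ i.1)
  have hunc' : ¬ (Set.univ : Set A).Countable := by
    rw [Set.countable_univ_iff]
    exact fun h => hunc (Set.countable_coe_iff.1 h)
  obtain ⟨i, -, j, -, hij, hclose⟩ := hQ H {s : Γ // s ∈ S} A Set.univ hunc'
    (fun i s => π i s.1 d) ε hε
  have hs1 : ∀ (i : A) (g : Γ), star (π i g) * π i g = 1 := by
    intro i g
    rw [hπstar, ← hπmul, inv_mul_cancel, hπ1]
  have hs2 : ∀ (i : A) (g : Γ), π i g * star (π i g) = 1 := by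
    intro i g
    rw [hπstar, ← hπmul, mul_inv_cancel, hπ1]
  have hn : ∀ (i : A) (g : Γ) (x : L2 H), ‖π i g x‖ = ‖x‖ := fun i g x =>
    norm_of_star _ (hs1 i g) (hs2 i g) x
  -- the representation
  let W : Γ → L2 H → L2 H := fun g f => π i g (J (π j g (J f)))
  have hW : IsUnitaryRep W := by
    refine ⟨?_, ?_, ?_, ?_, ?_⟩
    · intro g x y
      show π i g (J (π j g (J (x + y)))) = _
      rw [J_add, map_add, J_add, map_add]
    · intro g c x
      show π i g (J (π j g (J (c • x)))) = _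
      rw [J_smul, map_smul, J_smul, map_smul, Complex.conj_conj]
    · intro g x
      show ‖π i g (J (π j g (J x)))‖ = _
      rw [hn, J_norm, hn, J_norm]
    · intro x
      show π i 1 (J (π j 1 (J x))) = _
      rw [hπ1, hπ1]
      exact J_inv x
    · intro g h x
      show π i (g * h) (J (π j (g * h) (J x))) = π i g (J (π j g (J (π i h (J (π j h (J x)))))))
      rw [hπmul, hπmul]
      have h1 := Jcomm (π i h) (hπV i h) (π j g) (hπV j g) (J (π j h (J x)))
      rw [J_inv] at h1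
      show π i g (π i h (J (π j g (π j h (J x))))) = _
      rw [h1]
  have halm : ∃ v : L2 H, ‖v‖ = 1 ∧ ∀ s ∈ S, ‖W s v - v‖ < ε := by
    refine ⟨d, hd1, fun s hs => ?_⟩
    have h1 : W s d = π i s (star (π j s) d) := by
      show π i s (J (π j s (J d))) = _
      rw [Jd, Jstar _ (hπV j s)]
    have h2 : d = π j s (star (π j s) d) := by
      have := congrArg (fun T : Bd H => T d) (hs2 j s)
      exact this.symm
    have hmem : π i s + (-1 : ℂ) • π j s ∈ VN H :=
      ((hcl H).2.1 _ (hπV i s) _ (((hcl H).2.2 _ (hπV j s)).2 (-1))).1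
    have h3 : W s d - d = (π i s + (-1 : ℂ) • π j s) (star (π j s) d) := by
      rw [h1]
      nth_rewrite 2 [h2]
      simp [sub_eq_add_neg]
    have h4 : star (π j s) d = J (π j s (J d)) := by rw [Jd, Jstar _ (hπV j s)]
    rw [h3, h4, Jcomm _ hmem _ (hπV j s), J_norm, hn, J_norm]
    have h5 : (π i s + (-1 : ℂ) • π j s) d = π i s d - π j s d := by
      simp [sub_eq_add_neg]
    rw [h5]
    exact hclose ⟨s, hs⟩
  obtain ⟨w, hw0, hw⟩ := hKaz (L2 H) W hW halm
  have hJw : J w = 0 := by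
    refine hπfix j {g | ρ i g = 1} ?_ (J w) ?_
    · exact hρ i.1 j.1 (fun h => hij (Subtype.ext h))
    · intro g hg
      have h1 := hw g
      have h2 : W g w = J (π j g (J w)) := by
        show π i g (J (π j g (J w))) = _
        rw [hπker i g hg]
        rfl
      rw [h2] at h1
      have h3 := congrArg J h1
      rwa [J_inv] at h3
  apply hw0
  rw [← norm_eq_zero, ← J_norm, hJw, norm_zero]

end Pool.Agent.H193.OZ
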